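import Mathlib
import Pool.Agent.Helper533.Deny.Final

/-! Deny's theorem for nonlinear weighted potential theory: every polar `G_δ` set is the infinity
set of an `𝒜`-superharmonic function on the whole space. -/

open MeasureTheory Filter Topology Set

namespace Pool.Agent.Results.MP_9b58c5_an.DenyTheorem

open Pool.Agent.Helper533.Polar.Stmt

/-- Let `n ≥ 1`, `1 < p < ∞`, let `w ≥ 0` be a locally integrable function on `ℝⁿ` such that
`dμ = w dx` is `p`-admissible (doubling, with a weighted `(1,p)`-Poincaré inequality on balls) and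
let `𝒜` satisfy the structure conditions with constants `0 < α ≤ β`. Then for every `𝒜`-polar
`G_δ` set `E` there is an `𝒜`-superharmonic function `u` on `ℝⁿ` with `{u = ∞} = E`. -/
theorem result : ∀ (n : ℕ), 1 ≤ n → ∀ (p : ℝ), 1 < p → ∀ (w : Sp n → ℝ),
    Pool.Agent.Helper533.Deny.IsAdmissible p w → ∀ (α β : ℝ) (𝒜 : Sp n → Sp n → Sp n),
    IsOperator p α β w 𝒜 → ∀ (E : Set (Sp n)), IsGδ E →
    Pool.Agent.Helper533.Deny.IsPolar 𝒜 p w E →
    ∃ u : Sp n → EReal, Pool.Agent.Helper533.Deny.IsSuperharmonic 𝒜 p w univ u ∧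
      {x | u x = ⊤} = E :=
  fun _ hn _ hp _ hw _ _ _ hA _ hE hpol =>
    Pool.Agent.Helper533.Polar.deny_theorem hn hp hw hA hE hpol

end Pool.Agent.Results.MP_9b58c5_an.DenyTheorem
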